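import Pool.Agent.Helper32K9.Reg.Bridge
import Pool.Agent.TH977.PW.Inst

/-!
# Typical elements for systems of polynomials, integer arguments; shifts
-/

set_option autoImplicit false

namespace Pool.Agent.Helper32K9.Typ

open Filter Finset Polynomial
open Pool.Agent.W123.RU.Poly (Sys)
open Pool.Agent.X69.Ric
open Pool.Agent.Helper32K9.Reg

theorem sys_all {g : ℕ} (hg : 1 ≤ g) (F : Fin g → ℤ[X]) (hF : Sys F) (R : ℕ → ℕ → Prop)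
    (hR : ∀ q n : ℕ, 1 ≤ n → (R q n ↔ ∃ i, (q : ℤ) ∣ (F i).eval (n : ℤ))) (θ : ℝ) (hθ : 0 < θ) (hθ1 : θ ≤ 1) :
    ∃ r₀ : ℕ, 2 ≤ r₀ ∧ ∀ r : ℕ, r₀ ≤ r →
      (∃ κ : ℝ, 0 < κ ∧ ∀ᶠ X : ℕ in atTop, ∀ Y : ℕ, (X : ℝ) ^ θ ≤ Y → Y ≤ X →
        κ * Y / Real.log X ^ g ≤ ((AA F r ∩ Set.Ioc X (X + Y)).ncard : ℝ)) ∧
      MostTypical g r R θ ∧ GapsTypical g r R θ := by
  have : NeZero g := ⟨by omega⟩
  obtain ⟨r₁, h1, h1'⟩ := sys_almost_short F hF θ hθ hθ1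
  obtain ⟨r₂, h2, h2'⟩ := sys_regpat hg F hF R hR θ hθ hθ1
  obtain ⟨r₃, h3, h3'⟩ := sys_gaptyp hg F hF R hR θ hθ hθ1
  refine ⟨max r₁ (max r₂ r₃), h1.trans (le_max_left _ _), fun r hr => ⟨?_,
    most_of (h2' r (((le_max_left _ _).trans (le_max_right _ _)).trans hr)),
    gaps_of (h3' r (((le_max_right _ _).trans (le_max_right _ _)).trans hr))⟩⟩
  obtain ⟨κ, hκ, h4⟩ := h1' r ((le_max_left _ _).trans hr)
  refine ⟨κ, hκ, ?_⟩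
  filter_upwards [h4] with X hX Y k1 k2
  rw [Set.inter_comm]
  exact hX Y k1 k2

end Pool.Agent.Helper32K9.Typ
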