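import Mathlib

/-!
# Twin primes in the classes modulo 4: definitions
-/

set_option autoImplicit false

namespace Pool.Agent.Helper32K9.Twin

/-- the integers `n` such that all prime factors of `n` and `n + 2` are larger than `n ^ (1 / r)` -/
def R (r : ℕ) : Set ℕ := {n | ∀ q : ℕ, q.Prime → q ∣ n ∨ q ∣ n + 2 → (n : ℝ) ^ (1 / (r : ℝ)) < q}

/-- the `n ∈ R r` such that `n` and `n + 2` have at most `r` prime factors -/
def Al (r : ℕ) : Set ℕ := {n | n ∈ R r ∧ n.primeFactorsList.length ≤ r ∧ (n + 2).primeFactorsList.length ≤ r}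

/-- the elements of `A` in the class `a` modulo 4 -/
def cls (A : Set ℕ) (a : ℕ) : Set ℕ := {n | n ∈ A ∧ n % 4 = a}

end Pool.Agent.Helper32K9.Twin
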