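import Pool.Agent.Helper32K9.Reg.Tup
import Pool.Agent.Helper32K9.Reg.TwinDefs
import Pool.Agent.Helper32K9.Mark.Gap

/-!
# Typical elements: twin primes in the classes modulo 4
-/

set_option autoImplicit false

namespace Pool.Agent.Helper32K9.Twin

open Filter Finset Polynomial
open Pool.Agent.W123.RU.Poly (Sys)
open Pool.Agent.X69.Ric
open Pool.Agent.Helper32K9.Typ
open Pool.Agent.W182.PW

theorem adm_key (p k a w : ℕ) (hk : p = 2 * k + 1) (s : ℕ) (h : ¬ p ∣ w + s) :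
    ¬ p ∣ 4 * ((w + 2 * k * a) * (k + 1) ^ 2) + a + s := by
  intro hd
  apply h
  have e : 4 * ((w + 2 * k * a) * (k + 1) ^ 2) + a + s = (w + s) + p * (a + (p + 2) * (w + 2 * k * a)) := by
    subst hk
    ring
  rw [e] at hd
  exact (Nat.dvd_add_left ⟨_, rfl⟩).1 hd

theorem adm (a : ℕ) (ha : a = 1 ∨ a = 3) (p : ℕ) (hp : p.Prime) :
    ∃ m : ℕ, ¬ p ∣ 4 * m + a ∧ ¬ p ∣ 4 * m + a + 2 := by
  rcases hp.eq_two_or_odd' with h2 | hodd
  · refine ⟨0, ?_, ?_⟩ <;> rw [h2] <;> omega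
  · obtain ⟨k, hk⟩ := hodd
    have hp2 := hp.two_le
    by_cases h3 : p = 3
    · refine ⟨(2 + 2 * k * a) * (k + 1) ^ 2, ?_, ?_⟩
      · have := adm_key p k a 2 hk 0 (by rw [h3]; norm_num)
        simpa using this
      · exact adm_key p k a 2 hk 2 (by rw [h3]; norm_num)
    · have hp5 : 5 ≤ p := by
        rcases Nat.lt_or_ge p 5 with h | h
        · interval_cases p <;> omega
        · exact h
      refine ⟨(1 + 2 * k * a) * (k + 1) ^ 2, ?_, ?_⟩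
      · have := adm_key p k a 1 hk 0 (fun h => by have := Nat.le_of_dvd (by norm_num) h; omega)
        simpa using this
      · exact adm_key p k a 1 hk 2 (fun h => by have := Nat.le_of_dvd (by norm_num) h; omega)

theorem sys (a : ℕ) (ha : a = 1 ∨ a = 3) : Sys (fun i : Fin 2 => lin 4 (((a + 2 * (i : ℕ) : ℕ)) : ℤ)) := by
  have := Pool.Agent.TH977.PW.sys_lin (fun _ : Fin 2 => 4) (fun i => (((a + 2 * (i : ℕ) : ℕ)) : ℤ)) (fun _ => by norm_num)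
    (fun i => by
      rw [Nat.isCoprime_iff_coprime]
      rcases ha with rfl | rfl <;> fin_cases i <;> norm_num) (fun i j _ h => by
      apply Fin.ext
      have : a + 2 * (i : ℕ) = a + 2 * (j : ℕ) := by exact_mod_cast h
      omega) (fun p hp => by
      obtain ⟨m, h1, h2⟩ := adm a ha p hp
      refine ⟨m, fun i h => ?_⟩
      have e : ((4 : ℕ) : ℤ) * (m : ℤ) + (((a + 2 * (i : ℕ) : ℕ)) : ℤ) = ((4 * m + (a + 2 * (i : ℕ)) : ℕ) : ℤ) := by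
        push_cast
        ring
      rw [e] at h
      have h' : p ∣ 4 * m + (a + 2 * (i : ℕ)) := by exact_mod_cast h
      fin_cases i
      · exact h1 (by simpa using h')
      · exact h2 (by simpa [add_assoc] using h'))
  exact this

theorem div_iff (q n : ℕ) : (∃ i, q ∣ n + (![0, 2] : Fin 2 → ℕ) i) ↔ q ∣ n ∨ q ∣ n + 2 := by
  constructor
  · rintro ⟨i, hi⟩
    fin_cases i
    · exact Or.inl hi
    · exact Or.inr hi
  · rintro (h | h)
    · exact ⟨0, h⟩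
    · exact ⟨1, h⟩

/-- many almost primes in each class -/
theorem class_lower (a : ℕ) (ha : a = 1 ∨ a = 3) (θ : ℝ) (hθ : 0 < θ) (hθ1 : θ ≤ 1) :
    ∃ r₀ : ℕ, 2 ≤ r₀ ∧ ∀ r : ℕ, r₀ ≤ r → ∃ κ : ℝ, 0 < κ ∧ ∀ᶠ X : ℕ in atTop, ∀ Y : ℕ, (X : ℝ) ^ θ ≤ Y → Y ≤ X →
      κ * Y / Real.log X ^ 2 ≤ ((cls (Al r) a ∩ Set.Ioc X (X + Y)).ncard : ℝ) := by
  have hlt : a < 4 := by rcases ha with rfl | rfl <;> norm_num
  obtain ⟨r₁, hr₁, h⟩ := sys_almost_short (fun i : Fin 2 => lin 4 (((a + 2 * (i : ℕ) : ℕ)) : ℤ)) (sys a ha) (θ / 2)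
    (by positivity) (by linarith)
  refine ⟨2 * r₁, by omega, fun r hr => ?_⟩
  obtain ⟨s, hs⟩ : ∃ s, s = r / 2 := ⟨_, rfl⟩
  have hs1 : r₁ ≤ s := by omega
  have hsr : s ≤ r := by omega
  have h2s : 2 * s ≤ r := by omega
  obtain ⟨κ, hκ, h1⟩ := h s hs1
  refine ⟨κ / 8, by positivity, ?_⟩
  have ht : Tendsto (fun X : ℕ => X / 4) atTop atTop := Nat.tendsto_div_const_atTop (by norm_num)
  have hbig : ∀ᶠ X : ℕ in atTop, (12 : ℝ) ≤ (X : ℝ) ^ (θ / 2) :=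
    ((tendsto_rpow_atTop (by positivity : 0 < θ / 2)).comp tendsto_natCast_atTop_atTop).eventually_ge_atTop 12
  filter_upwards [ht.eventually h1, ht.eventually (eventually_ge_atTop 7), eventually_ge_atTop 28, hbig] with X hX hX7 hX28 hb
  intro Y hXY hYX
  have hXr : (28 : ℝ) ≤ X := by exact_mod_cast hX28
  have hb2 : (X : ℝ) ^ θ = (X : ℝ) ^ (θ / 2) * (X : ℝ) ^ (θ / 2) := by
    rw [← Real.rpow_add (by linarith)]
    congr 1
    ring
  have hY1 : 12 * (X : ℝ) ^ (θ / 2) ≤ Y := by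
    refine le_trans ?_ hXY
    rw [hb2]
    gcongr
  have hY144 : (144 : ℝ) ≤ Y := by linarith
  have hY144' : 144 ≤ Y := by exact_mod_cast hY144
  have hYd : (Y : ℝ) / 8 ≤ (((Y - 3) / 4 : ℕ) : ℝ) := by
    have : Y ≤ 8 * ((Y - 3) / 4) := by omega
    have h2 : (Y : ℝ) ≤ 8 * (((Y - 3) / 4 : ℕ) : ℝ) := by exact_mod_cast this
    linarith
  have hX4 : ((X / 4 : ℕ) : ℝ) ≤ X := by exact_mod_cast Nat.div_le_self X 4
  have hX7r : (7 : ℝ) ≤ ((X / 4 : ℕ) : ℝ) := by exact_mod_cast hX7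
  have h2 := hX ((Y - 3) / 4) (by
    calc ((X / 4 : ℕ) : ℝ) ^ (θ / 2) ≤ (X : ℝ) ^ (θ / 2) := Real.rpow_le_rpow (Nat.cast_nonneg _) hX4 (by positivity)
      _ ≤ Y / 8 := by
        have : (0 : ℝ) ≤ (X : ℝ) ^ (θ / 2) := by positivity
        linarith
      _ ≤ _ := hYd) (by omega)
  have hl1 : 0 < Real.log ((X / 4 : ℕ) : ℝ) := Real.log_pos (by linarith)
  have hl2 : Real.log ((X / 4 : ℕ) : ℝ) ≤ Real.log X := Real.log_le_log (by linarith) hX4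
  have h3 : κ / 8 * Y / Real.log X ^ 2 ≤ κ * (((Y - 3) / 4 : ℕ) : ℝ) / Real.log ((X / 4 : ℕ) : ℝ) ^ 2 := by
    have h4 : κ / 8 * Y ≤ κ * (((Y - 3) / 4 : ℕ) : ℝ) := by
      calc κ / 8 * Y = κ * (Y / 8) := by ring
        _ ≤ _ := by gcongr
    gcongr
  refine h3.trans (h2.trans (Nat.cast_le.2 ?_))
  rw [← Set.ncard_image_of_injective _ (show Function.Injective (fun m : ℕ => 4 * m + a) from fun x y hxy => by
    simp only at hxy; omega)]
  apply Set.ncard_le_ncard _ ((Set.finite_Ioc X (X + Y)).subset Set.inter_subset_right)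
  rintro _ ⟨m, ⟨hmI, hm⟩, rfl⟩
  have hmI1 := hmI.1
  have hmI2 := hmI.2
  have hval : ∀ i : Fin 2, (lin 4 (((a + 2 * (i : ℕ) : ℕ)) : ℤ)).eval (m : ℤ) = ((4 * m + (a + 2 * (i : ℕ)) : ℕ) : ℤ) := by
    intro i
    rw [lin_eval]
    push_cast
    ring
  have hpow : ((4 * m + a : ℕ) : ℝ) ^ (1 / (r : ℝ)) ≤ (m : ℝ) ^ (1 / (s : ℝ)) := by
    have hs0 : (0 : ℝ) < s := by exact_mod_cast (by omega : 0 < s)
    have hr0 : (0 : ℝ) < r := by exact_mod_cast (by omega : 0 < r)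
    have hle : ((4 * m + a : ℕ) : ℝ) ≤ (m : ℝ) ^ (2 : ℝ) := by
      have : 4 * m + a ≤ m ^ 2 := by nlinarith
      rw [show (2 : ℝ) = ((2 : ℕ) : ℝ) by norm_num, Real.rpow_natCast]
      exact_mod_cast this
    have hm1 : (1 : ℝ) ≤ m := by exact_mod_cast (by omega : 1 ≤ m)
    calc ((4 * m + a : ℕ) : ℝ) ^ (1 / (r : ℝ)) ≤ ((m : ℝ) ^ (2 : ℝ)) ^ (1 / (r : ℝ)) :=
          Real.rpow_le_rpow (Nat.cast_nonneg _) hle (by positivity)
      _ = (m : ℝ) ^ (2 * (1 / (r : ℝ))) := by rw [← Real.rpow_mul (Nat.cast_nonneg _)]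
      _ ≤ (m : ℝ) ^ (1 / (s : ℝ)) := by
        apply Real.rpow_le_rpow_of_exponent_le hm1
        rw [mul_one_div, div_le_div_iff₀ hr0 hs0]
        have : ((2 * s : ℕ) : ℝ) ≤ r := by exact_mod_cast h2s
        push_cast at this
        linarith
  refine ⟨⟨⟨?_, ?_, ?_⟩, ?_⟩, ?_⟩
  · intro q hq hd
    refine lt_of_le_of_lt hpow ?_
    rcases hd with hd | hd
    · refine (hm 0).2 q hq ?_
      rw [hval]
      have : q ∣ 4 * m + (a + 2 * ((0 : Fin 2) : ℕ)) := by simpa using hd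
      exact_mod_cast this
    · refine (hm 1).2 q hq ?_
      rw [hval]
      have : q ∣ 4 * m + (a + 2 * ((1 : Fin 2) : ℕ)) := by
        have e : ((1 : Fin 2) : ℕ) = 1 := rfl
        rw [e]
        have e2 : 4 * m + (a + 2 * 1) = 4 * m + a + 2 := by ring
        rw [e2]
        exact hd
      exact_mod_cast this
  · have := (hm 0).1
    rw [hval, Int.natAbs_natCast, ArithmeticFunction.cardFactors_apply] at this
    have e : 4 * m + (a + 2 * ((0 : Fin 2) : ℕ)) = 4 * m + a := by simp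
    rw [e] at this
    exact this.trans hsr
  · have := (hm 1).1
    rw [hval, Int.natAbs_natCast, ArithmeticFunction.cardFactors_apply] at this
    have e : 4 * m + (a + 2 * ((1 : Fin 2) : ℕ)) = 4 * m + a + 2 := by
      have e : ((1 : Fin 2) : ℕ) = 1 := rfl
      rw [e]
      ring
    rw [e] at this
    exact this.trans hsr
  · show (4 * m + a) % 4 = a
    omega
  · show X < 4 * m + a ∧ 4 * m + a ≤ X + Y
    omega

theorem main (θ : ℝ) (hθ : 0 < θ) (hθ1 : θ ≤ 1) :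
    ∃ r₀ : ℕ, 2 ≤ r₀ ∧ ∀ r : ℕ, r₀ ≤ r →
      (∃ κ : ℝ, 0 < κ ∧ ∀ᶠ X : ℕ in atTop, ∀ Y : ℕ, (X : ℝ) ^ θ ≤ Y → Y ≤ X →
        κ * Y / Real.log X ^ 2 ≤ ((cls (Al r) 1 ∩ Set.Ioc X (X + Y)).ncard : ℝ) ∧
        κ * Y / Real.log X ^ 2 ≤ ((cls (Al r) 3 ∩ Set.Ioc X (X + Y)).ncard : ℝ)) ∧
      MostTypical 2 r (fun q n => q ∣ n ∨ q ∣ n + 2) θ ∧
      Mark.GapsTypicalIn 2 r (fun q n => q ∣ n ∨ q ∣ n + 2) θ := by
  obtain ⟨r₁, hr₁, k1⟩ := class_lower 1 (Or.inl rfl) θ hθ hθ1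
  obtain ⟨r₂, hr₂, k2⟩ := class_lower 3 (Or.inr rfl) θ hθ hθ1
  have hinj : Function.Injective (![0, 2] : Fin 2 → ℕ) := by
    intro i j hij
    fin_cases i <;> fin_cases j <;> simp at hij ⊢
  have hadm : ∀ p : ℕ, p.Prime → ∃ m : ℕ, ∀ i, ¬ p ∣ m + (![0, 2] : Fin 2 → ℕ) i := by
    intro p hp
    obtain ⟨m, h1, h2⟩ := adm 1 (Or.inl rfl) p hp
    refine ⟨4 * m + 1, fun i => ?_⟩
    fin_cases i
    · simpa using h1
    · simpa using h2
  obtain ⟨r₃, hr₃, k3⟩ := Pool.Agent.Helper32K9.Tup.main (by norm_num : 1 ≤ 2) (![0, 2] : Fin 2 → ℕ) hinj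
    hadm θ hθ hθ1
  have hF : Sys (fun i : Fin 2 => lin 1 ((![0, 2] : Fin 2 → ℕ) i : ℤ)) := by
    have := Pool.Agent.TH977.PW.sys_lin (fun _ : Fin 2 => 1) (fun i => ((![0, 2] : Fin 2 → ℕ) i : ℤ)) (fun _ => one_pos)
      (fun i => by rw [Nat.cast_one]; exact isCoprime_one_left) (fun i j _ h => hinj (by exact_mod_cast h)) (fun p hp => by
        obtain ⟨m, hm⟩ := hadm p hp
        refine ⟨m, fun i h => hm i ?_⟩
        have e : ((1 : ℕ) : ℤ) * (m : ℤ) + ((![0, 2] : Fin 2 → ℕ) i : ℤ) = ((m + (![0, 2] : Fin 2 → ℕ) i : ℕ) : ℤ) := by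
          push_cast; ring
        rw [e] at h
        exact_mod_cast h)
    exact this
  have hev : ∀ (i : Fin 2) (n : ℕ), (lin 1 ((![0, 2] : Fin 2 → ℕ) i : ℤ)).eval (n : ℤ) =
      ((n + (![0, 2] : Fin 2 → ℕ) i : ℕ) : ℤ) := by
    intro i n
    rw [lin_eval]
    push_cast
    ring
  obtain ⟨r₄, hr₄, k4⟩ := Mark.sys_gaps_in (by norm_num : 1 ≤ 2) (fun i : Fin 2 => lin 1 ((![0, 2] : Fin 2 → ℕ) i : ℤ)) hF
    (fun q n => q ∣ n ∨ q ∣ n + 2) (fun q n _ => by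
      rw [← div_iff]
      simp only [hev, Int.natCast_dvd_natCast]) θ hθ hθ1
  have e : (fun q n : ℕ => ∃ i, q ∣ n + (![0, 2] : Fin 2 → ℕ) i) = (fun q n => q ∣ n ∨ q ∣ n + 2) := by
    funext q n
    exact propext (div_iff q n)
  rw [e] at k3
  refine ⟨max (max r₁ r₂) (max r₃ r₄), by omega, fun r hr => ?_⟩
  obtain ⟨κ₁, h1, l1⟩ := k1 r (by omega)
  obtain ⟨κ₂, h2, l2⟩ := k2 r (by omega)
  refine ⟨⟨min κ₁ κ₂, lt_min h1 h2, ?_⟩, (k3 r (by omega)).2.1, k4 r (by omega)⟩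
  filter_upwards [l1, l2, eventually_ge_atTop 3] with X m1 m2 hX3 Y hXY hYX
  have hlX : 0 < Real.log (X : ℝ) := Real.log_pos (by exact_mod_cast (by omega : 1 < X))
  constructor
  · refine le_trans ?_ (m1 Y hXY hYX)
    have := min_le_left κ₁ κ₂
    gcongr
  · refine le_trans ?_ (m2 Y hXY hYX)
    have := min_le_right κ₁ κ₂
    gcongr

end Pool.Agent.Helper32K9.Twin
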