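import Mathlib

/-!
# Regular and typical elements of a set of integers: definitions
-/

set_option autoImplicit false

namespace Pool.Agent.Helper32K9.Typ

open Finset

/-- the number of the elements of `A` in `(a, b]` -/
noncomputable def cnt (A : Set ℕ) (a b : ℕ) : ℕ := (A ∩ Set.Ioc a b).ncard

/-- All intervals `(n - s, n + t]`, `s, t ≤ Y`, with `c (s + t) ≥ (log X) ^ k` contain at least
`c (s + t) / (log X) ^ k` and at most `(s + t) / (c (log X) ^ k)` elements of `A`. -/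
def RightOrder (A : Set ℕ) (k : ℕ) (c : ℝ) (X Y n : ℕ) : Prop :=
  ∀ s t : ℕ, s ≤ Y → t ≤ Y → Real.log X ^ k ≤ c * (s + t) →
    c * (s + t) / Real.log X ^ k ≤ cnt A (n - s) (n + t) ∧
      (cnt A (n - s) (n + t) : ℝ) ≤ (s + t) / (c * Real.log X ^ k)

/-- For some `lam` in `[c, 1 / c]` the number of the elements of `A` in every interval `(n - s, n + t]` with
`s, t ≤ 2 ^ j` is `lam (s + t) / (log X) ^ k` up to `δ 2 ^ j / (log X) ^ k`. -/
def ConstantDensity (A : Set ℕ) (k : ℕ) (c δ : ℝ) (X n j : ℕ) : Prop :=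
  ∃ lam : ℝ, c ≤ lam ∧ lam ≤ 1 / c ∧ ∀ s t : ℕ, s ≤ 2 ^ j → t ≤ 2 ^ j →
    |(cnt A (n - s) (n + t) : ℝ) - lam * (s + t) / Real.log X ^ k| ≤ δ * 2 ^ j / Real.log X ^ k

/-- The regular elements of `A` in `(X, X + Y]`: those with `RightOrder` and with `ConstantDensity` for all
but at most `B` of the exponents `j ≤ log₂ Y` with `(log X) ^ k ≤ 2 ^ j`. -/
def Regular (A : Set ℕ) (k : ℕ) (c δ : ℝ) (B X Y : ℕ) : Set ℕ :=
  {n | n ∈ A ∧ n ∈ Set.Ioc X (X + Y) ∧ RightOrder A k c X Y n ∧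
    {j : ℕ | j ≤ Nat.log 2 Y ∧ Real.log X ^ k ≤ (2 : ℝ) ^ j ∧ ¬ ConstantDensity A k c δ X n j}.ncard ≤ B}

/-- all the integers `n + ∑ f i * d i`, `|f i| ≤ K`, are elements of `S` -/
def Centre (K : ℕ) (S : Set ℕ) {m : ℕ} (n : ℕ) (d : Fin m → ℕ) : Prop :=
  ∀ f : Fin m → ℤ, (∀ i, |f i| ≤ K) → ∃ s ∈ S, (s : ℤ) = n + ∑ i, f i * (d i : ℤ)

/-- the number of the difference vectors `d` in `{1, ..., D} ^ m` such that `n` is the centre of a pattern
in `S` with differences `d` -/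
noncomputable def patterns (K m D : ℕ) (S : Set ℕ) (n : ℕ) : ℕ :=
  {d : Fin m → ℕ | (∀ i, 1 ≤ d i ∧ d i ≤ D) ∧ Centre K S n d}.ncard

/-- The typical elements of `A` in `(X, X + Y]`: the regular elements which are the centres of at least
`c D ^ m / (log X) ^ (k ((2 K + 1) ^ m - 1))` patterns of regular elements. -/
def Typical (A : Set ℕ) (k : ℕ) (c δ : ℝ) (B K m X Y D : ℕ) : Set ℕ :=
  {n | n ∈ Regular A k c δ B X Y ∧
    c * ((D : ℝ) ^ m / Real.log X ^ (k * ((2 * K + 1) ^ m - 1))) ≤ (patterns K m D (Regular A k c δ B X Y) n : ℝ)}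

/-- `h` is the vector of the `l` gaps of `A` that follow `n`: the elements of `A` in `[n, n + ∑ h i]` are
exactly the numbers `n + h 0 + ... + h (j - 1)`, `j ≤ l`. -/
def NextGaps (A : Set ℕ) {l : ℕ} (h : Fin l → ℕ) (n : ℕ) : Prop :=
  (∀ i, 0 < h i) ∧ ∀ x, (x ∈ A ∧ n ≤ x ∧ x ≤ n + ∑ i, h i) ↔
    ∃ j : ℕ, j ≤ l ∧ x = n + ∑ i ∈ (univ : Finset (Fin l)).filter (fun i : Fin l => (i : ℕ) < j), h i

end Pool.Agent.Helper32K9.Typ
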