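import Pool.Agent.Helper32K9.Reg.Pack
import Pool.Agent.Helper32K9.Reg.Defs

/-!
# The packaged statements in terms of the definitions of `Defs`
-/

set_option autoImplicit false

namespace Pool.Agent.Helper32K9.Typ

open Filter Finset Polynomial
open Pool.Agent.X69.Ric
open Pool.Agent.Helper32K9.Reg

theorem N_eq (A : Set ℕ) (a b : ℕ) : Pool.Agent.TH977.PW.N A a b = cnt A a b := by
  rw [N_eq_ncard]
  rfl

theorem rightOrder_eq (A : Set ℕ) (k : ℕ) (c : ℝ) (X Y n : ℕ) :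
    Pool.Agent.TH977.PW.RightOrder A k c X Y n ↔ RightOrder A k c X Y n := by
  unfold Pool.Agent.TH977.PW.RightOrder RightOrder
  simp only [N_eq]

theorem constantDensity_eq (A : Set ℕ) (k : ℕ) (c δ : ℝ) (X n j : ℕ) :
    Pool.Agent.TH977.PW.ConstantDensity A k c δ X n j ↔ ConstantDensity A k c δ X n j := by
  unfold Pool.Agent.TH977.PW.ConstantDensity ConstantDensity
  simp only [N_eq]

theorem badScales_eq (A : Set ℕ) (k : ℕ) (c δ : ℝ) (X Y n : ℕ) :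
    Pool.Agent.TH977.PW.badScales A k c δ X Y n =
      {j : ℕ | j ≤ Nat.log 2 Y ∧ Real.log X ^ k ≤ (2 : ℝ) ^ j ∧ ¬ ConstantDensity A k c δ X n j}.ncard := by
  classical
  unfold Pool.Agent.TH977.PW.badScales
  rw [← Set.ncard_coe_finset]
  congr 1
  ext j
  rw [Finset.mem_coe, Finset.mem_filter, Finset.mem_range, Set.mem_ofPred_eq, constantDensity_eq, Nat.lt_succ_iff]

theorem regE_eq (A : Set ℕ) (k : ℕ) (c δ : ℝ) (B X Y : ℕ) : RegE A k c δ B X Y = Regular A k c δ B X Y := by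
  ext n
  unfold RegE Regular
  rw [Set.mem_ofPred_eq, Set.mem_ofPred_eq, rightOrder_eq, badScales_eq]

theorem typE_eq (A : Set ℕ) (k : ℕ) (c δ : ℝ) (B K m X Y D : ℕ) :
    TypE A k c δ B K m X Y D = Typical A k c δ B K m X Y D := by
  unfold TypE Typical
  rw [regE_eq]
  rfl

theorem NG_eq {A : Set ℕ} {l : ℕ} {h : Fin l → ℕ} {n : ℕ} : NG A h n ↔ NextGaps A h n := Iff.rfl

/-- all but a proportion `ε` of the elements of any set of rough integers are typical -/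
def MostTypical (k r : ℕ) (R : ℕ → ℕ → Prop) (θ : ℝ) : Prop :=
  ∀ m K : ℕ, 1 ≤ K → ∀ ε : ℝ, 0 < ε →
    ∃ c : ℝ, 0 < c ∧ ∀ δ : ℝ, 0 < δ → ∃ B : ℕ, ∀ᶠ X : ℕ in atTop, ∀ Y D : ℕ, (X : ℝ) ^ θ ≤ Y → 2 * Y ≤ X →
    Real.log X ^ B ≤ D → D ≤ Y → ∀ A : Set ℕ,
    (∀ n ∈ A, ∀ q : ℕ, q.Prime → R q n → (n : ℝ) ^ (1 / (r : ℝ)) < q) →
    (((A ∩ Set.Ioc X (X + Y)) \ Typical A k c δ B K m X Y D).ncard : ℝ) ≤ ε * Y / Real.log X ^ k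

/-- in any dense set of rough integers many gap vectors have the right frequency at typical elements -/
def GapsTypical (k r : ℕ) (R : ℕ → ℕ → Prop) (θ : ℝ) : Prop :=
  ∀ (c₀ : ℝ), 0 < c₀ → ∀ l : ℕ, 1 ≤ l → ∃ W κ : ℝ, 0 < W ∧ 0 < κ ∧
    ∀ m K : ℕ, 1 ≤ K → ∃ c : ℝ, 0 < c ∧ ∀ δ : ℝ, 0 < δ → ∃ B : ℕ, ∀ᶠ X : ℕ in atTop, ∀ Y D : ℕ,
    (X : ℝ) ^ θ ≤ Y → 2 * Y ≤ X → Real.log X ^ B ≤ D → D ≤ Y → ∀ A : Set ℕ,
    (∀ n ∈ A, ∀ q : ℕ, q.Prime → R q n → (n : ℝ) ^ (1 / (r : ℝ)) < q) →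
    c₀ * Y / Real.log X ^ k ≤ ((A ∩ Set.Ioc X (X + Y)).ncard : ℝ) →
    κ * Real.log X ^ (k * l) ≤ ({h : Fin l → ℕ | (∀ i, 0 < h i ∧ (h i : ℝ) ≤ W * Real.log X ^ k) ∧
      κ * Y / Real.log X ^ (k * (l + 1)) ≤
        ({n | n ∈ Typical A k c δ B K m X Y D ∧ NextGaps A h n}.ncard : ℝ)}.ncard : ℝ)

theorem most_of {k r : ℕ} {R : ℕ → ℕ → Prop} {θ : ℝ} (h : MostTyp k r R θ) : MostTypical k r R θ := by
  intro m K hK ε hε
  obtain ⟨c, hc, h1⟩ := h m K hK ε hε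
  refine ⟨c, hc, fun δ hδ => ?_⟩
  obtain ⟨B, h2⟩ := h1 δ hδ
  refine ⟨B, ?_⟩
  filter_upwards [h2] with X hX Y D k1 k2 k3 k4 A hA
  refine le_trans (le_of_eq ?_) (hX Y D k1 k2 k3 k4 A hA)
  congr 2
  ext n
  rw [typE_eq]
  simp only [Set.mem_sdiff, Set.mem_inter_iff, Set.mem_ofPred_eq]
  tauto

theorem gaps_of {k r : ℕ} {R : ℕ → ℕ → Prop} {θ : ℝ} (h : GapTyp k r R θ) : GapsTypical k r R θ := by
  intro c₀ hc₀ l hl
  obtain ⟨W, κ, hW, hκ, h4⟩ := h c₀ hc₀ l hl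
  refine ⟨W, κ, hW, hκ, fun m K hK => ?_⟩
  obtain ⟨c, hc, h5⟩ := h4 m K hK
  refine ⟨c, hc, fun δ hδ => ?_⟩
  obtain ⟨B, h6⟩ := h5 δ hδ
  refine ⟨B, ?_⟩
  filter_upwards [h6] with X hX Y D k1 k2 k3 k4 A hA k5
  refine (hX Y D k1 k2 k3 k4 A hA k5).trans (le_of_eq ?_)
  have : ∀ h : Fin l → ℕ, {n | n ∈ A ∧ n ∈ Set.Ioc X (X + Y) ∧ NG A h n ∧ n ∈ TypE A k c δ B K m X Y D} =
      {n | n ∈ Typical A k c δ B K m X Y D ∧ NextGaps A h n} := by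
    intro h
    ext n
    rw [typE_eq, Set.mem_ofPred_eq, Set.mem_ofPred_eq]
    constructor
    · rintro ⟨-, -, h1, h2⟩
      exact ⟨h2, h1⟩
    · rintro ⟨h1, h2⟩
      exact ⟨h1.1.1, h1.1.2.1, h2, h1⟩
  simp only [this]

end Pool.Agent.Helper32K9.Typ
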