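import Pool.Agent.Helper32K9.Reg.Pat
import Pool.Agent.X69.Ric.PackS

/-!
# Frequent gap vectors at typical elements
-/

set_option autoImplicit false

namespace Pool.Agent.Helper32K9.Reg

open Filter Finset Polynomial
open Pool.Agent.W123.RU.Poly (Sys)
open Pool.Agent.X69.Ric

theorem parts_lt {m : ℕ} {h : Fin m → ℕ} (hh : ∀ i, 0 < h i) (i : ℕ) : ∀ j : ℕ, j ≤ m → i < j → parts h i < parts h j := by
  intro j
  induction j with
  | zero => intro _ h; omega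
  | succ j ih =>
    intro hj hij
    rw [parts_succ h j (by omega)]
    have := hh ⟨j, by omega⟩
    rcases Nat.lt_succ_iff_lt_or_eq.1 hij with h1 | h1
    · have := ih (by omega) h1
      omega
    · rw [h1]
      omega

theorem NG_parts {A : Set ℕ} {m : ℕ} {h h' : Fin m → ℕ} {n : ℕ} (h1 : NG A h n) (h2 : NG A h' n) :
    ∀ j : ℕ, j ≤ m → parts h j = parts h' j := by
  have g1 := (NG_iff h1.1 n).1 h1
  have g2 := (NG_iff h2.1 n).1 h2
  have key : ∀ (h h' : Fin m → ℕ), (∀ i, 0 < h i) → (∀ i, 0 < h' i) → GapAt A h n → GapAt A h' n → ∀ j : ℕ, j + 1 ≤ m →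
      parts h j = parts h' j → parts h' (j + 1) ≤ parts h (j + 1) := by
    intro h h' hh hh' g1 g2 j hj he
    by_contra hcon
    rw [not_le] at hcon
    have h3 : parts h' (j + 1) ≤ parts h' m := by
      rcases Nat.lt_or_ge (j + 1) m with h4 | h4
      · exact (parts_lt hh' (j + 1) m le_rfl h4).le
      · have : j + 1 = m := by omega
        rw [this]
    obtain ⟨i, hi, hi'⟩ := (g2 (n + parts h (j + 1))).1 ⟨GapAt.mem g1 (j + 1) hj, by omega, by omega⟩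
    have h5 : parts h (j + 1) = parts h' i := by omega
    have h6 : parts h j < parts h (j + 1) := parts_lt hh j (j + 1) hj (by omega)
    rcases Nat.lt_trichotomy i j with h7 | h7 | h7
    · have := parts_lt hh' i j (by omega) h7
      omega
    · rw [h7] at h5
      omega
    · rcases Nat.lt_or_ge (j + 1) i with h8 | h8
      · have := parts_lt hh' (j + 1) i hi h8
        omega
      · have : i = j + 1 := by omega
        rw [this] at h5
        omega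
  intro j
  induction j with
  | zero => intro _; rw [parts_zero, parts_zero]
  | succ j ih =>
    intro hj
    have h3 := ih (by omega)
    exact le_antisymm (key h' h h2.1 h1.1 g2 g1 j hj h3.symm) (key h h' h1.1 h2.1 g1 g2 j hj h3)

theorem NG_unique {A : Set ℕ} {m : ℕ} {h h' : Fin m → ℕ} {n : ℕ} (h1 : NG A h n) (h2 : NG A h' n) : h = h' := by
  have h3 := NG_parts h1 h2
  funext i
  have h4 := h3 i (by omega)
  have h5 := h3 (i + 1) (by omega)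
  rw [parts_succ h i i.2, parts_succ h' i i.2] at h5
  have : h ⟨i, i.2⟩ = h' ⟨i, i.2⟩ := by omega
  exact this

/-- The abstract step: if the vectors `h` with at least `κ M` occurrences are at least `κ L` many and there are
at most `κ² M L / 4` exceptional points, then at least `κ L / 2` vectors have at least `κ M / 2` occurrences at
non exceptional points. -/
theorem frequent_typ {m : ℕ} (A T I : Set ℕ) (hI : I.Finite) (OKv : Set (Fin m → ℕ)) (hOK : OKv.Finite)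
    (κ L M : ℝ) (hκ : 0 < κ) (hM : 0 < M)
    (h1 : κ * L ≤ ({h | h ∈ OKv ∧ κ * M ≤ ({n | n ∈ A ∧ n ∈ I ∧ NG A h n}.ncard : ℝ)}.ncard : ℝ))
    (h2 : ({n | n ∈ A ∧ n ∈ I ∧ n ∉ T}.ncard : ℝ) ≤ κ ^ 2 / 4 * (M * L)) :
    κ / 2 * L ≤ ({h | h ∈ OKv ∧ κ / 2 * M ≤ ({n | n ∈ A ∧ n ∈ I ∧ NG A h n ∧ n ∈ T}.ncard : ℝ)}.ncard : ℝ) := by
  classical
  obtain ⟨G, hG⟩ : ∃ G : Set (Fin m → ℕ), G = {h | h ∈ OKv ∧ κ * M ≤ ({n | n ∈ A ∧ n ∈ I ∧ NG A h n}.ncard : ℝ)} :=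
    ⟨_, rfl⟩
  obtain ⟨G', hG'⟩ : ∃ G' : Set (Fin m → ℕ),
      G' = {h | h ∈ OKv ∧ κ / 2 * M ≤ ({n | n ∈ A ∧ n ∈ I ∧ NG A h n ∧ n ∈ T}.ncard : ℝ)} := ⟨_, rfl⟩
  rw [← hG] at h1
  rw [← hG']
  have hGf : G.Finite := hOK.subset (by rw [hG]; exact fun h hh => hh.1)
  have hGf' : G'.Finite := hOK.subset (by rw [hG']; exact fun h hh => hh.1)
  -- the bad vectors
  have hbadf : (G \ G').Finite := hGf.subset Set.sdiff_subset
  have hsets : ∀ h : Fin m → ℕ, {n | n ∈ A ∧ n ∈ I ∧ NG A h n}.ncard ≤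
      {n | n ∈ A ∧ n ∈ I ∧ NG A h n ∧ n ∈ T}.ncard + {n | n ∈ A ∧ n ∈ I ∧ NG A h n ∧ n ∉ T}.ncard := by
    intro h
    refine le_trans (Set.ncard_le_ncard ?_ ?_) (Set.ncard_union_le _ _)
    · rintro n ⟨k1, k2, k3⟩
      by_cases hT : n ∈ T
      · exact Or.inl ⟨k1, k2, k3, hT⟩
      · exact Or.inr ⟨k1, k2, k3, hT⟩
    · exact (hI.subset (fun n hn => hn.2.1)).union (hI.subset (fun n hn => hn.2.1))
  have hbad : ∀ h ∈ G \ G', κ / 2 * M ≤ ({n | n ∈ A ∧ n ∈ I ∧ NG A h n ∧ n ∉ T}.ncard : ℝ) := by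
    rintro h ⟨hh1, hh2⟩
    rw [hG] at hh1
    rw [hG'] at hh2
    have h3 : ({n | n ∈ A ∧ n ∈ I ∧ NG A h n ∧ n ∈ T}.ncard : ℝ) < κ / 2 * M := by
      by_contra hcon
      exact hh2 ⟨hh1.1, not_lt.1 hcon⟩
    have h4 : ({n | n ∈ A ∧ n ∈ I ∧ NG A h n}.ncard : ℝ) ≤
      {n | n ∈ A ∧ n ∈ I ∧ NG A h n ∧ n ∈ T}.ncard + {n | n ∈ A ∧ n ∈ I ∧ NG A h n ∧ n ∉ T}.ncard := by
      exact_mod_cast hsets h
    have h5 := hh1.2
    linarith
  have hsum : ((G \ G').ncard : ℝ) * (κ / 2 * M) ≤ κ ^ 2 / 4 * (M * L) := by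
    refine le_trans ?_ h2
    rw [Set.ncard_eq_toFinset_card _ hbadf]
    have h6 : (hbadf.toFinset.card : ℝ) * (κ / 2 * M) ≤
        ∑ h ∈ hbadf.toFinset, ({n | n ∈ A ∧ n ∈ I ∧ NG A h n ∧ n ∉ T}.ncard : ℝ) := by
      rw [← nsmul_eq_mul, ← Finset.sum_const]
      exact Finset.sum_le_sum fun h hh => hbad h ((Set.Finite.mem_toFinset _).1 hh)
    refine h6.trans ?_
    obtain ⟨E, hE⟩ : ∃ E : (Fin m → ℕ) → Finset ℕ, ∀ h, E h = (hI.toFinset).filter (fun n => n ∈ A ∧ NG A h n ∧ n ∉ T) :=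
      ⟨_, fun h => rfl⟩
    have h7 : ∀ h : Fin m → ℕ, {n | n ∈ A ∧ n ∈ I ∧ NG A h n ∧ n ∉ T}.ncard = (E h).card := by
      intro h
      rw [hE, ← Set.ncard_coe_finset]
      congr 1
      ext n
      rw [Finset.mem_coe, Finset.mem_filter, Set.Finite.mem_toFinset, Set.mem_ofPred_eq]
      tauto
    simp only [h7]
    rw [← Nat.cast_sum]
    apply Nat.cast_le.2
    rw [← Finset.card_biUnion]
    · rw [← Set.ncard_coe_finset]
      apply Set.ncard_le_ncard _ (hI.subset (fun n hn => hn.2.1))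
      intro n hn
      rw [Finset.mem_coe, Finset.mem_biUnion] at hn
      obtain ⟨h, _, hn⟩ := hn
      rw [hE, Finset.mem_filter, Set.Finite.mem_toFinset] at hn
      exact ⟨hn.2.1, hn.1, hn.2.2.2⟩
    · intro h _ h' _ hne
      rw [Function.onFun, Finset.disjoint_left]
      intro n hn hn'
      rw [hE, Finset.mem_filter] at hn hn'
      exact hne (NG_unique hn.2.2.1 hn'.2.2.1)
  have hbadle : ((G \ G').ncard : ℝ) ≤ κ / 2 * L := by
    have h8 : ((G \ G').ncard : ℝ) * (κ / 2 * M) ≤ (κ / 2 * L) * (κ / 2 * M) := by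
      refine hsum.trans (le_of_eq ?_)
      ring
    exact le_of_mul_le_mul_right h8 (by positivity)
  have h9 : (G.ncard : ℝ) ≤ G'.ncard + (G \ G').ncard := by
    have : G.ncard ≤ G'.ncard + (G \ G').ncard := by
      refine le_trans (Set.ncard_le_ncard ?_ (hGf'.union hbadf)) (Set.ncard_union_le _ _)
      intro h hh
      by_cases hh' : h ∈ G'
      · exact Or.inl hh'
      · exact Or.inr ⟨hh, hh'⟩
    exact_mod_cast this
  linarith

variable {g : ℕ}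

/-- **Frequent gap vectors at typical elements.** -/
theorem sys_gaptyp (hg : 1 ≤ g) (F : Fin g → ℤ[X]) (hF : Sys F) (R : ℕ → ℕ → Prop)
    (hR : ∀ q n : ℕ, 1 ≤ n → (R q n ↔ ∃ i, (q : ℤ) ∣ (F i).eval (n : ℤ))) (θ : ℝ) (hθ : 0 < θ) (hθ1 : θ ≤ 1) :
    ∃ r₀ : ℕ, 2 ≤ r₀ ∧ ∀ r : ℕ, r₀ ≤ r → ∀ (c₀ : ℝ), 0 < c₀ → ∀ l : ℕ, 1 ≤ l → ∃ W κ : ℝ, 0 < W ∧ 0 < κ ∧
    ∀ m K : ℕ, 1 ≤ K → ∃ c : ℝ, 0 < c ∧ ∀ δ : ℝ, 0 < δ → ∃ B : ℕ, ∀ᶠ X : ℕ in atTop, ∀ Y D : ℕ,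
    (X : ℝ) ^ θ ≤ Y → 2 * Y ≤ X → Real.log X ^ B ≤ D → D ≤ Y → ∀ A : Set ℕ,
    (∀ n ∈ A, ∀ q : ℕ, q.Prime → R q n → (n : ℝ) ^ (1 / (r : ℝ)) < q) →
    c₀ * Y / Real.log X ^ g ≤ ({n | n ∈ A ∧ n ∈ Set.Ioc X (X + Y)}.ncard : ℝ) →
    κ * Real.log X ^ (g * l) ≤ ({h : Fin l → ℕ | (∀ i, 0 < h i ∧ (h i : ℝ) ≤ W * Real.log X ^ g) ∧
      κ * Y / Real.log X ^ (g * (l + 1)) ≤
        ({n | n ∈ A ∧ n ∈ Set.Ioc X (X + Y) ∧ NG A h n ∧ n ∈ TypE A g c δ B K m X Y D}.ncard : ℝ)}.ncard : ℝ) := by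
  classical
  obtain ⟨r₀, hr₀, hpat⟩ := sys_regpat hg F hF R hR θ hθ hθ1
  refine ⟨r₀, hr₀, fun r hr c₀ hc₀ l hl => ?_⟩
  have hr0 : (0 : ℝ) < r := by exact_mod_cast (by omega : 0 < r)
  have hrr : (0 : ℝ) < 1 / r := by positivity
  obtain ⟨W, hW, κ, hκ, hfrq⟩ := sys_frq F hg hF (1 / r) θ c₀ hrr hθ hc₀ l hl
  refine ⟨W, κ / 2, hW, by positivity, fun m K hK => ?_⟩
  obtain ⟨c, hc, hc'⟩ := hpat r hr m K hK (κ ^ 2 / 4) (by positivity)
  refine ⟨c, hc, fun δ hδ => ?_⟩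
  obtain ⟨B, hB⟩ := hc' δ hδ
  refine ⟨B, ?_⟩
  filter_upwards [hB, hfrq, eventually_ge_atTop 3] with X hX1 hX2 hX3
  intro Y D hXY hYX hD hDY A hA hdens
  have hXr : (3 : ℝ) ≤ X := by exact_mod_cast hX3
  have hX0 : (0 : ℝ) < X := by linarith
  have hlX : 0 < Real.log X := Real.log_pos (by linarith)
  have hY0 : (0 : ℝ) < Y := lt_of_lt_of_le (by positivity) hXY
  have e1 := hX1 Y D hXY hYX hD hDY A hA
  have e2 := hX2 X Y hXY A (fun n hn hnI i p hp hd => by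
    have hn1 : 1 ≤ n := by have := hnI.1; omega
    refine le_trans ?_ (hA n hn p hp ((hR p n hn1).2 ⟨i, hd⟩)).le
    exact Real.rpow_le_rpow hX0.le (by exact_mod_cast hnI.1.le) hrr.le) (by
    refine hdens.trans (le_of_eq ?_)
    rfl)
  have hfinOK : {h : Fin l → ℕ | ∀ i, 0 < h i ∧ (h i : ℝ) ≤ W * Real.log X ^ g}.Finite := by
    refine (Set.Finite.pi' (fun _ : Fin l => Set.finite_Icc 0 ⌊W * Real.log X ^ g⌋₊)).subset ?_
    intro h hh i
    exact ⟨Nat.zero_le _, Nat.le_floor (hh i).2⟩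
  have key := frequent_typ A (TypE A g c δ B K m X Y D) (Set.Ioc X (X + Y)) (Set.finite_Ioc _ _)
    {h : Fin l → ℕ | ∀ i, 0 < h i ∧ (h i : ℝ) ≤ W * Real.log X ^ g} hfinOK κ (Real.log X ^ (g * l))
    (Y / Real.log X ^ (g * (l + 1))) hκ (by positivity) (by
      refine e2.trans (le_of_eq ?_)
      unfold frq fq
      simp only [mul_div_assoc, Set.mem_ofPred_eq]) (by
      refine e1.trans (le_of_eq ?_)
      have : Real.log X ^ (g * (l + 1)) = Real.log X ^ (g * l) * Real.log X ^ g := by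
        rw [← pow_add]
        congr 1
      rw [this]
      field_simp)
  refine key.trans (le_of_eq ?_)
  simp only [mul_div_assoc, Set.mem_ofPred_eq]

end Pool.Agent.Helper32K9.Reg
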