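import Pool.Agent.Helper32K9.Reg.Gap

/-!
# Patterns and gap vectors of regular elements: packaged statements
-/

set_option autoImplicit false

namespace Pool.Agent.Helper32K9.Reg

open Filter Finset Polynomial
open Pool.Agent.W123.RU.Poly (Sys)
open Pool.Agent.X69.Ric

/-- all but a proportion `ε` of the elements of any set of rough integers are typical -/
def MostTyp (k r : ℕ) (R : ℕ → ℕ → Prop) (θ : ℝ) : Prop :=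
  ∀ m K : ℕ, 1 ≤ K → ∀ ε : ℝ, 0 < ε →
    ∃ c : ℝ, 0 < c ∧ ∀ δ : ℝ, 0 < δ → ∃ B : ℕ, ∀ᶠ X : ℕ in atTop, ∀ Y D : ℕ, (X : ℝ) ^ θ ≤ Y → 2 * Y ≤ X →
    Real.log X ^ B ≤ D → D ≤ Y → ∀ A : Set ℕ,
    (∀ n ∈ A, ∀ q : ℕ, q.Prime → R q n → (n : ℝ) ^ (1 / (r : ℝ)) < q) →
    ({n : ℕ | n ∈ A ∧ n ∈ Set.Ioc X (X + Y) ∧ n ∉ TypE A k c δ B K m X Y D}.ncard : ℝ) ≤
      ε * Y / Real.log X ^ k

/-- in any dense set of rough integers many gap vectors have the right frequency at typical elements -/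
def GapTyp (k r : ℕ) (R : ℕ → ℕ → Prop) (θ : ℝ) : Prop :=
  ∀ (c₀ : ℝ), 0 < c₀ → ∀ l : ℕ, 1 ≤ l → ∃ W κ : ℝ, 0 < W ∧ 0 < κ ∧
    ∀ m K : ℕ, 1 ≤ K → ∃ c : ℝ, 0 < c ∧ ∀ δ : ℝ, 0 < δ → ∃ B : ℕ, ∀ᶠ X : ℕ in atTop, ∀ Y D : ℕ,
    (X : ℝ) ^ θ ≤ Y → 2 * Y ≤ X → Real.log X ^ B ≤ D → D ≤ Y → ∀ A : Set ℕ,
    (∀ n ∈ A, ∀ q : ℕ, q.Prime → R q n → (n : ℝ) ^ (1 / (r : ℝ)) < q) →
    c₀ * Y / Real.log X ^ k ≤ ({n | n ∈ A ∧ n ∈ Set.Ioc X (X + Y)}.ncard : ℝ) →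
    κ * Real.log X ^ (k * l) ≤ ({h : Fin l → ℕ | (∀ i, 0 < h i ∧ (h i : ℝ) ≤ W * Real.log X ^ k) ∧
      κ * Y / Real.log X ^ (k * (l + 1)) ≤
        ({n | n ∈ A ∧ n ∈ Set.Ioc X (X + Y) ∧ NG A h n ∧ n ∈ TypE A k c δ B K m X Y D}.ncard : ℝ)}.ncard : ℝ)

theorem PSys_typ {g : ℕ} {F : Fin g → ℤ[X]} {v : ℕ → Fin g → ℕ} (H : PSys F v) (R : ℕ → ℕ → Prop)
    (hR : ∀ q n : ℕ, 1 ≤ n → (R q n ↔ (q ∣ n ∨ ∃ i, q ∣ v n i))) (θ : ℝ) (hθ : 0 < θ) (hθ1 : θ ≤ 1) :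
    ∃ r₀ : ℕ, 2 ≤ r₀ ∧ ∀ r : ℕ, r₀ ≤ r →
      (∃ κ : ℝ, 0 < κ ∧ ∀ᶠ X : ℕ in atTop,
        κ * X / Real.log X ^ (g + 1) ≤ ((AVp v r ∩ Set.Ioc X (X + X)).ncard : ℝ)) ∧
      MostTyp (g + 1) r R θ ∧ GapTyp (g + 1) r R θ := by
  obtain ⟨r₁, h1, h1'⟩ := H.dyadic
  have hR' : ∀ q n : ℕ, 1 ≤ n → (R q n ↔ ∃ i, (q : ℤ) ∣ (cX F i).eval (n : ℤ)) :=
    fun q n hn => (hR q n hn).trans (H.divs hn)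
  obtain ⟨r₂, h2, h2'⟩ := sys_regpat (Nat.succ_pos g) (cX F) H.sys R hR' θ hθ hθ1
  obtain ⟨r₃, h3, h3'⟩ := sys_gaptyp (Nat.succ_pos g) (cX F) H.sys R hR' θ hθ hθ1
  refine ⟨max r₁ (max r₂ r₃), h1.trans (le_max_left _ _), fun r hr => ⟨h1' r ((le_max_left _ _).trans hr),
    h2' r (((le_max_left _ _).trans (le_max_right _ _)).trans hr),
    h3' r (((le_max_right _ _).trans (le_max_right _ _)).trans hr)⟩⟩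

end Pool.Agent.Helper32K9.Reg
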