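import Pool.Agent.X69.Ric.PatC
import Pool.Agent.TH977.PW.Final

/-!
# Patterns of regular elements

Almost all elements of an arbitrary set of integers at which the values of a system of polynomials have no
small prime factors are regular points of the set and centres of the right number of patterns all of whose
elements are regular points of the set.
-/

set_option autoImplicit false

namespace Pool.Agent.Helper32K9.Reg

open Filter Finset Polynomial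
open Pool.Agent.W123.RU.Poly (Sys)
open Pool.Agent.X69.Ric
open Pool.Agent.TH977.PW (N Irregular RightOrder ConstantDensity badScales Rough RoughX)

/-- the regular elements of `A` in `(X, X + Y]` -/
def RegE (A : Set ℕ) (k : ℕ) (c δ : ℝ) (B X Y : ℕ) : Set ℕ :=
  {n | n ∈ A ∧ n ∈ Set.Ioc X (X + Y) ∧ RightOrder A k c X Y n ∧ badScales A k c δ X Y n ≤ B}

/-- the regular elements of `A` in `(X, X + Y]` which are centres of at least
`c D ^ m / (log X) ^ (k ((2 K + 1) ^ m - 1))` patterns of regular elements -/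
def TypE (A : Set ℕ) (k : ℕ) (c δ : ℝ) (B K m X Y D : ℕ) : Set ℕ :=
  {n | n ∈ RegE A k c δ B X Y ∧
    c * ((D : ℝ) ^ m / Real.log X ^ (k * ((2 * K + 1) ^ m - 1))) ≤ (patR K m D (RegE A k c δ B X Y) n : ℝ)}

theorem rightOrder_mono {A : Set ℕ} {k X Y m : ℕ} {c c' : ℝ} (hc' : 0 < c') (hcc : c' ≤ c) (hX : 0 < Real.log X)
    (h : RightOrder A k c X Y m) : RightOrder A k c' X Y m := by
  intro s t hs ht hl
  have hst : (0 : ℝ) ≤ (s : ℝ) + t := by positivity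
  have hL : 0 < Real.log X ^ k := by positivity
  obtain ⟨h1, h2⟩ := h s t hs ht (hl.trans (mul_le_mul_of_nonneg_right hcc hst))
  refine ⟨le_trans ?_ h1, h2.trans ?_⟩
  · exact div_le_div_of_nonneg_right (mul_le_mul_of_nonneg_right hcc hst) hL.le
  · apply div_le_div_of_nonneg_left hst (by positivity)
    exact mul_le_mul_of_nonneg_right hcc hL.le

theorem constantDensity_mono {A : Set ℕ} {k X m j : ℕ} {c c' δ : ℝ} (hc' : 0 < c') (hcc : c' ≤ c)
    (h : ConstantDensity A k c δ X m j) : ConstantDensity A k c' δ X m j := by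
  obtain ⟨lam, h1, h2, h3⟩ := h
  exact ⟨lam, hcc.trans h1, h2.trans (one_div_le_one_div_of_le hc' hcc), h3⟩

theorem badScales_mono {A : Set ℕ} {k X Y m : ℕ} {c c' δ : ℝ} (hc' : 0 < c') (hcc : c' ≤ c) :
    badScales A k c' δ X Y m ≤ badScales A k c δ X Y m := by
  classical
  unfold badScales
  apply card_le_card
  intro j hj
  rw [mem_filter] at hj ⊢
  exact ⟨hj.1, hj.2.1, fun h => hj.2.2 (constantDensity_mono hc' hcc h)⟩

theorem irregular_mono {A : Set ℕ} {k B B' X Y : ℕ} {c c' δ : ℝ} (hc' : 0 < c') (hcc : c' ≤ c) (hB : B ≤ B')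
    (hX : 0 < Real.log X) : Irregular A k c' δ B' X Y ⊆ Irregular A k c δ B X Y := by
  rintro m ⟨h1, h2⟩
  refine ⟨h1, fun h => h2 ⟨rightOrder_mono hc' hcc hX h.1, ?_⟩⟩
  exact ((badScales_mono hc' hcc).trans h.2).trans hB

theorem N_eq_ncard (A : Set ℕ) (a b : ℕ) : N A a b = {n | n ∈ A ∧ n ∈ Set.Ioc a b}.ncard := by
  classical
  unfold N
  rw [← Set.ncard_coe_finset]
  congr 1
  ext n
  rw [Finset.mem_coe, Finset.mem_filter, Finset.mem_Ioc]
  simp only [Set.mem_ofPred_eq, Set.mem_Ioc]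
  tauto

variable {g : ℕ}

/-- **Patterns of regular elements.** -/
theorem sys_regpat (hg : 1 ≤ g) (F : Fin g → ℤ[X]) (hF : Sys F) (R : ℕ → ℕ → Prop)
    (hR : ∀ q n : ℕ, 1 ≤ n → (R q n ↔ ∃ i, (q : ℤ) ∣ (F i).eval (n : ℤ))) (θ : ℝ) (hθ : 0 < θ) (hθ1 : θ ≤ 1) :
    ∃ r₀ : ℕ, 2 ≤ r₀ ∧ ∀ r : ℕ, r₀ ≤ r → ∀ m K : ℕ, 1 ≤ K → ∀ ε : ℝ, 0 < ε →
    ∃ c : ℝ, 0 < c ∧ ∀ δ : ℝ, 0 < δ → ∃ B : ℕ, ∀ᶠ X : ℕ in atTop, ∀ Y D : ℕ, (X : ℝ) ^ θ ≤ Y → 2 * Y ≤ X →
    Real.log X ^ B ≤ D → D ≤ Y → ∀ A : Set ℕ,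
    (∀ n ∈ A, ∀ q : ℕ, q.Prime → R q n → (n : ℝ) ^ (1 / (r : ℝ)) < q) →
    ({n : ℕ | n ∈ A ∧ n ∈ Set.Ioc X (X + Y) ∧ n ∉ TypE A g c δ B K m X Y D}.ncard : ℝ) ≤
      ε * Y / Real.log X ^ g := by
  classical
  haveI : Nonempty (Fin g) := ⟨⟨0, by omega⟩⟩
  obtain ⟨r₀, hr₀, hher⟩ := Pool.Agent.TH977.PW.hereditary F hF θ hθ hθ1
  refine ⟨r₀, hr₀, fun r hr m K hK ε hε => ?_⟩
  have hr2 : 2 ≤ r := hr₀.trans hr
  have hr0 : (0 : ℝ) < r := by exact_mod_cast (by omega : 0 < r)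
  have hκ : (0 : ℝ) < 1 / r := by positivity
  have hκ1 : (1 : ℝ) / r ≤ 1 := by
    rw [div_le_one hr0]
    exact_mod_cast (by omega : 1 ≤ r)
  obtain ⟨c₁, hc₁, h1⟩ := hher r hr (ε / 2) (by positivity)
  obtain ⟨c₂, hc₂, B₂, h2⟩ := sys_typS F hF R (fun q n hn h => (hR q n hn).2 h) m K hK (1 / r)
    (ε / 2 * θ ^ g) hκ hκ1 (by positivity)
  obtain ⟨c, hc⟩ : ∃ c, c = min c₁ c₂ := ⟨_, rfl⟩
  have hc0 : 0 < c := by rw [hc]; exact lt_min hc₁ hc₂
  refine ⟨c, hc0, fun δ hδ => ?_⟩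
  obtain ⟨B₁, h1⟩ := h1 δ hδ
  refine ⟨max B₁ B₂, ?_⟩
  obtain ⟨Y₀, hY₀⟩ := eventually_atTop.1 h2
  have hlim : ∀ᶠ X : ℕ in atTop, (Y₀ : ℝ) ≤ (X : ℝ) ^ θ :=
    (tendsto_rpow_atTop hθ).comp tendsto_natCast_atTop_atTop |>.eventually_ge_atTop _
  have hlim2 : ∀ᶠ X : ℕ in atTop, (3 : ℝ) ≤ (X : ℝ) ^ θ :=
    (tendsto_rpow_atTop hθ).comp tendsto_natCast_atTop_atTop |>.eventually_ge_atTop _
  filter_upwards [h1, hlim, hlim2, eventually_ge_atTop 3] with X hX1 hXY₀ hX3' hX3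
  intro Y D hXY hYX hD hDY A hA
  have hX0 : (0 : ℝ) < X := by exact_mod_cast (by omega : 0 < X)
  have hlog : 1 ≤ Real.log X := by
    rw [Real.le_log_iff_exp_le hX0]
    have h3 : Real.exp 1 < 3 := by
      have := Real.exp_one_lt_d9
      linarith
    have h4 : (3 : ℝ) ≤ X := by exact_mod_cast hX3
    linarith
  have hlog0 : 0 < Real.log X := by linarith
  have hYX' : Y ≤ X := by omega
  have hYge : Y₀ ≤ Y := by exact_mod_cast hXY₀.trans hXY
  have hY3 : (3 : ℝ) ≤ Y := hX3'.trans hXY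
  have hY0 : (0 : ℝ) < Y := by linarith
  have hlogY : 0 < Real.log Y := Real.log_pos (by linarith)
  have hlogYX : Real.log Y ≤ Real.log X := Real.log_le_log hY0 (by exact_mod_cast hYX')
  have hlogYX' : θ * Real.log X ≤ Real.log Y := by
    rw [← Real.log_rpow hX0]
    exact Real.log_le_log (by positivity) hXY
  have hcc₁ : c ≤ c₁ := by rw [hc]; exact min_le_left _ _
  have hcc₂ : c ≤ c₂ := by rw [hc]; exact min_le_right _ _
  -- the irregular elements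
  have hAR : ∀ n ∈ A, Rough F r n := by
    intro n hn i p hp hd
    rcases Nat.eq_zero_or_pos n with h0 | h0
    · rw [h0, Nat.cast_zero, Real.zero_rpow (by positivity)]
      exact_mod_cast hp.pos
    · exact hA n hn p hp ((hR p n h0).2 ⟨i, hd⟩)
  have e1 := hX1 Y hXY hYX A hAR
  rw [Fintype.card_fin, N_eq_ncard] at e1
  -- the elements with few patterns
  obtain ⟨S, hS⟩ : ∃ S, S = RegE A g c δ (max B₁ B₂) X Y := ⟨_, rfl⟩
  have hSA : ∀ n ∈ S, n ∈ A ∧ n ∈ Set.Ioc X (X + Y) := by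
    intro n hn
    rw [hS] at hn
    exact ⟨hn.1, hn.2.1⟩
  have e2 := hY₀ Y hYge X D (by
      refine le_trans ?_ hD
      calc Real.log Y ^ B₂ ≤ Real.log X ^ B₂ := pow_le_pow_left₀ hlogY.le hlogYX _
        _ ≤ Real.log X ^ (max B₁ B₂) := pow_le_pow_right₀ hlog (le_max_right _ _)) hDY S
    (fun n hn => (hSA n hn).2) (fun n hn q hq hRq => by
      refine lt_of_le_of_lt ?_ (hA n (hSA n hn).1 q hq hRq)
      apply Real.rpow_le_rpow hY0.le _ hκ.le
      have := (hSA n hn).2.1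
      exact_mod_cast (by omega : Y ≤ n))
  -- together
  have hfin : (Set.Ioc X (X + Y)).Finite := Set.finite_Ioc _ _
  have hsub : {n : ℕ | n ∈ A ∧ n ∈ Set.Ioc X (X + Y) ∧ n ∉ TypE A g c δ (max B₁ B₂) K m X Y D} ⊆
      {n | n ∈ Irregular A g c₁ δ B₁ X Y ∧ n ∈ Set.Ioc X (X + Y)} ∪
      {n : ℕ | n ∈ S ∧ (patR K m D S n : ℝ) <
        c₂ * ((D : ℝ) ^ m / Real.log Y ^ (g * ((2 * K + 1) ^ m - 1)))} := by
    rintro n ⟨hnA, hnI, hnT⟩
    by_cases hnS : n ∈ S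
    · right
      refine ⟨hnS, ?_⟩
      by_contra hcon
      rw [not_lt] at hcon
      apply hnT
      refine ⟨by rw [← hS]; exact hnS, ?_⟩
      rw [← hS]
      refine le_trans ?_ hcon
      apply mul_le_mul hcc₂ _ (by positivity) hc₂.le
      apply div_le_div_of_nonneg_left (by positivity) (by positivity)
      exact pow_le_pow_left₀ hlogY.le hlogYX _
    · left
      refine ⟨irregular_mono hc0 hcc₁ (le_max_left B₁ B₂) hlog0 ⟨hnA, fun h => hnS ?_⟩, hnI⟩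
      rw [hS]
      exact ⟨hnA, hnI, h.1, h.2⟩
  have hunion := (Set.ncard_le_ncard hsub ((hfin.subset (fun n hn => hn.2)).union
    (hfin.subset (fun n hn => (hSA n hn.1).2)))).trans (Set.ncard_union_le _ _)
  have hunion' : ({n : ℕ | n ∈ A ∧ n ∈ Set.Ioc X (X + Y) ∧ n ∉ TypE A g c δ (max B₁ B₂) K m X Y D}.ncard : ℝ) ≤
      ({n | n ∈ Irregular A g c₁ δ B₁ X Y ∧ n ∈ Set.Ioc X (X + Y)}.ncard : ℝ) +
      ({n : ℕ | n ∈ S ∧ (patR K m D S n : ℝ) <
        c₂ * ((D : ℝ) ^ m / Real.log Y ^ (g * ((2 * K + 1) ^ m - 1)))}.ncard : ℝ) := by exact_mod_cast hunion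
  refine hunion'.trans ?_
  have e3 : ε / 2 * θ ^ g * Y / Real.log Y ^ g ≤ ε / 2 * Y / Real.log X ^ g := by
    rw [div_le_div_iff₀ (by positivity) (by positivity)]
    have h5 : (θ * Real.log X) ^ g ≤ Real.log Y ^ g := pow_le_pow_left₀ (by positivity) hlogYX' _
    rw [mul_pow] at h5
    calc ε / 2 * θ ^ g * Y * Real.log X ^ g = ε / 2 * Y * (θ ^ g * Real.log X ^ g) := by ring
      _ ≤ ε / 2 * Y * Real.log Y ^ g := mul_le_mul_of_nonneg_left h5 (by positivity)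
  calc _ ≤ ε / 2 * Y / Real.log X ^ g + ε / 2 * θ ^ g * Y / Real.log Y ^ g := add_le_add e1 e2
    _ ≤ ε / 2 * Y / Real.log X ^ g + ε / 2 * Y / Real.log X ^ g := by linarith
    _ = ε * Y / Real.log X ^ g := by ring

end Pool.Agent.Helper32K9.Reg
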