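import Mathlib

/-!
# The primes `p` with `8 p ^ 2 - 1` almost prime: definitions
-/

set_option autoImplicit false

namespace Pool.Agent.Helper32K9.Reg.Q8

/-- the integers `n` such that all prime factors of `n` and of `8 n ^ 2 - 1` are larger than `n ^ (1 / r)` -/
def R (r : ℕ) : Set ℕ :=
  {n | ∀ q : ℕ, q.Prime → (q ∣ n ∨ q ∣ 8 * n ^ 2 - 1) → (n : ℝ) ^ (1 / (r : ℝ)) < q}

/-- the primes `p` such that `8 p ^ 2 - 1` has at most `r` prime factors, all larger than `p ^ (1 / r)` -/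
def Al (r : ℕ) : Set ℕ :=
  {p | p.Prime ∧ (8 * p ^ 2 - 1).primeFactorsList.length ≤ r ∧
    ∀ q : ℕ, q.Prime → q ∣ 8 * p ^ 2 - 1 → (p : ℝ) ^ (1 / (r : ℝ)) < q}

end Pool.Agent.Helper32K9.Reg.Q8
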