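import Pool.Agent.Helper32K9.Reg.Bridge
import Pool.Agent.Helper32K9.Reg.Q8Defs
import Pool.Agent.TH977.PW.Inst

/-!
# The primes `p` with `8 p ^ 2 - 1` almost prime
-/

set_option autoImplicit false

namespace Pool.Agent.Helper32K9.Reg.Q8

open Filter Finset Polynomial
open Pool.Agent.X69.Ric
open Pool.Agent.Helper32K9.Typ (MostTypical GapsTypical most_of gaps_of)
open Pool.Agent.TH464.PW

theorem psys : PSys (fun _ : Fin 1 => quad 8 0 (-1)) (fun n _ => 8 * n ^ 2 - 1) where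
  irr := fun _ => quad_irr 8 0 (-1) (by norm_num) (by
    rintro p hp ⟨-, -, h⟩
    rw [dvd_neg] at h
    exact hp.one_lt.ne' (Nat.dvd_one.1 (by exact_mod_cast h))) (by
    rintro ⟨a, ha⟩
    norm_num at ha
    have h1 : |a| ≤ 5 := by
      by_contra hcon
      rw [not_le] at hcon
      have : 6 ≤ |a| := by omega
      have h2 : |a| * |a| = a * a := abs_mul_abs_self a
      nlinarith
    have h2 := abs_le.1 h1
    obtain ⟨h3, h4⟩ := h2
    interval_cases a <;> omega)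
  deg := fun _ => by rw [quad_deg 8 0 (-1) (by norm_num)]; norm_num
  lead := fun _ => by rw [quad_lead 8 0 (-1) (by norm_num)]; norm_num
  inj := fun _ _ _ => Subsingleton.elim _ _
  neX := fun _ h => by
    have h1 := quad_deg 8 0 (-1) (by norm_num)
    rw [h, Polynomial.natDegree_X] at h1
    omega
  adm := fun p hp => by
    by_cases h2 : p = 2
    · refine ⟨1, by rw [h2]; norm_num, fun _ => ?_⟩
      rw [quad_eval, h2]
      norm_num
    · by_cases h7 : p = 7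
      · refine ⟨2, by rw [h7]; norm_num, fun _ => ?_⟩
        rw [quad_eval, h7]
        norm_num
      · refine ⟨1, fun h => hp.one_lt.ne' (Nat.dvd_one.1 h), fun _ h => ?_⟩
        rw [quad_eval] at h
        norm_num at h
        have h3 : p ∣ 7 := by exact_mod_cast h
        exact h7 ((Nat.prime_dvd_prime_iff_eq hp (by norm_num)).1 h3)
  val := fun n hn _ => by
    rw [quad_eval]
    have h : 1 ≤ 8 * n ^ 2 := by nlinarith
    push_cast [Nat.cast_sub h]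
    ring

theorem prime_mem {r p : ℕ} (hr : 2 ≤ r) (hp : p.Prime) (hq : (8 * p ^ 2 - 1).Prime) : p ∈ R r := by
  intro q hqp h
  have hp2 := hp.two_le
  rcases h with h | h
  · exact Pool.Agent.TH977.PW.rpow_lt_dvd r p q hr hp hqp h
  · rw [(Nat.prime_dvd_prime_iff_eq hqp hq).1 h]
    apply Pool.Agent.TH977.PW.rpow_lt_of_le r p _ hr hp2
    have : p ≤ p ^ 2 := by nlinarith
    omega

theorem al_mem {r p : ℕ} (hr : 2 ≤ r) (hp : p ∈ Al r) : p ∈ R r := by
  intro q hqp h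
  rcases h with h | h
  · exact Pool.Agent.TH977.PW.rpow_lt_dvd r p q hr hp.1 hqp h
  · exact hp.2.2 q hqp h

theorem AVp_eq (r : ℕ) : AVp (fun (n : ℕ) (_ : Fin 1) => 8 * n ^ 2 - 1) r = Al r := by
  ext p
  unfold AVp AV Al
  simp only [Set.mem_ofPred_eq, ArithmeticFunction.cardFactors_apply, Fin.forall_fin_one]

theorem main (θ : ℝ) (hθ : 0 < θ) (hθ1 : θ ≤ 1) :
    ∃ r₀ : ℕ, 2 ≤ r₀ ∧ ∀ r : ℕ, r₀ ≤ r →
      (∃ κ : ℝ, 0 < κ ∧ ∀ᶠ X : ℕ in atTop,
        κ * X / Real.log X ^ 2 ≤ ((Al r ∩ Set.Ioc X (X + X)).ncard : ℝ)) ∧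
      MostTypical 2 r (fun q n => q ∣ n ∨ q ∣ 8 * n ^ 2 - 1) θ ∧
      GapsTypical 2 r (fun q n => q ∣ n ∨ q ∣ 8 * n ^ 2 - 1) θ := by
  obtain ⟨r₀, hr₀, h⟩ := PSys_typ psys (fun q n => q ∣ n ∨ q ∣ 8 * n ^ 2 - 1) (fun q n _ => by simp) θ hθ hθ1
  refine ⟨r₀, hr₀, fun r hr => ?_⟩
  obtain ⟨h1, h2, h3⟩ := h r hr
  rw [AVp_eq] at h1
  exact ⟨h1, most_of h2, gaps_of h3⟩

end Pool.Agent.Helper32K9.Reg.Q8
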