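import Mathlib

/-!
# Quadratic polynomials of Conjecture F: rough and almost prime values, definitions
-/

set_option autoImplicit false

namespace Pool.Agent.Helper32K9.QuadF

/-- The triples of Conjecture F: `a > 0`, `gcd (a, b, c) = 1`, `a + b` and `c` are not both even, and the
discriminant is not a perfect square. -/
def Admissible (a b c : ℤ) : Prop :=
  0 < a ∧ (∀ p : ℕ, p.Prime → (p : ℤ) ∣ a → (p : ℤ) ∣ b → ¬ (p : ℤ) ∣ c) ∧
    ¬ (Even (a + b) ∧ Even c) ∧ ¬ IsSquare (b ^ 2 - 4 * a * c)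

/-- the positive integers `t` such that all prime factors of `a t ^ 2 + b t + c` are larger than `t ^ (1 / r)` -/
def R (a b c : ℤ) (r : ℕ) : Set ℕ :=
  {t | 1 ≤ t ∧ ∀ q : ℕ, q.Prime → (q : ℤ) ∣ a * (t : ℤ) ^ 2 + b * t + c → (t : ℝ) ^ (1 / (r : ℝ)) < q}

/-- the `t ∈ R a b c r` such that `a t ^ 2 + b t + c` has at most `r` prime factors -/
def Al (a b c : ℤ) (r : ℕ) : Set ℕ :=
  {t | t ∈ R a b c r ∧ (a * (t : ℤ) ^ 2 + b * t + c).natAbs.primeFactorsList.length ≤ r}

end Pool.Agent.Helper32K9.QuadF
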