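import Pool.Agent.Helper32K9.Reg.Pack2
import Pool.Agent.Helper32K9.Reg.Quad2Defs

/-!
# Typical elements: quadratic polynomials
-/

set_option autoImplicit false

namespace Pool.Agent.Helper32K9.QuadF

open Filter Finset Polynomial
open Pool.Agent.W123.RU.Poly (Sys)
open Pool.Agent.X69.Ric
open Pool.Agent.Helper32K9.Typ
open Pool.Agent.TH464.PW

theorem sys (a b c : ℤ) (h : Admissible a b c) : Sys (fun _ : Fin 1 => quad a b c) := by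
  obtain ⟨ha, hg, hpar, hD⟩ := h
  have hg' : ∀ p : ℕ, p.Prime → ¬ ((p : ℤ) ∣ a ∧ (p : ℤ) ∣ b ∧ (p : ℤ) ∣ c) := fun p hp hh => hg p hp hh.1 hh.2.1 hh.2.2
  refine ⟨fun _ => quad_irr a b c ha.ne' hg' hD, fun _ => ?_, fun _ => ?_, fun _ _ _ => Subsingleton.elim _ _,
    fun p hp => ?_⟩
  · rw [quad_deg a b c ha.ne']; norm_num
  · rw [quad_lead a b c ha.ne']; exact ha
  · obtain ⟨m, hm⟩ := quad_adm a b c hg' hpar p hp
    exact ⟨m, fun _ => hm⟩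

/-- the values are large -/
theorem val_large (a b c : ℤ) (ha : 0 < a) : ∃ t₀ : ℕ, 2 ≤ t₀ ∧ ∀ t : ℕ, t₀ ≤ t → (t : ℤ) ≤ a * (t : ℤ) ^ 2 + b * t + c := by
  refine ⟨(|b| + |c| + 2).toNat, ?_, fun t ht => ?_⟩
  · have := abs_nonneg b
    have := abs_nonneg c
    omega
  · have h1 := abs_nonneg b
    have h2 := abs_nonneg c
    have ht' : |b| + |c| + 2 ≤ (t : ℤ) := by omega
    have h3 := neg_abs_le b
    have h4 := neg_abs_le c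
    have ht0 : (0 : ℤ) ≤ t := by positivity
    have h5 : (t : ℤ) ^ 2 ≤ a * (t : ℤ) ^ 2 := by nlinarith [sq_nonneg (t : ℤ)]
    have h6 : -(|b| * t) ≤ b * t := by nlinarith
    have h7 : (|b| + |c| + 2) * (t : ℤ) ≤ (t : ℤ) * t := mul_le_mul_of_nonneg_right ht' ht0
    have h8 : |c| ≤ |c| * t := by
      have : (1 : ℤ) ≤ t := by linarith
      nlinarith
    nlinarith

theorem prime_mem (a b c : ℤ) (ha : 0 < a) : ∃ t₀ : ℕ, ∀ r : ℕ, 2 ≤ r →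
    {t : ℕ | t₀ ≤ t ∧ Prime (a * (t : ℤ) ^ 2 + b * t + c)} ⊆ R a b c r := by
  obtain ⟨t₀, h0, h1⟩ := val_large a b c ha
  refine ⟨t₀, fun r hr t ht => ?_⟩
  obtain ⟨ht0, hp⟩ := ht
  refine ⟨by omega, fun q hq hd => ?_⟩
  have h2 := h1 t ht0
  obtain ⟨v, hv⟩ : ∃ v : ℕ, a * (t : ℤ) ^ 2 + b * t + c = (v : ℤ) := by
    refine ⟨(a * (t : ℤ) ^ 2 + b * t + c).toNat, ?_⟩
    rw [Int.toNat_of_nonneg]
    have : (0 : ℤ) ≤ t := by positivity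
    linarith
  rw [hv] at hp hd h2
  have hvp : v.Prime := Nat.prime_iff_prime_int.2 hp
  have hqv : q ∣ v := by exact_mod_cast hd
  rw [(Nat.prime_dvd_prime_iff_eq hq hvp).1 hqv]
  exact Pool.Agent.TH977.PW.rpow_lt_of_le r t v hr (by omega) (by exact_mod_cast h2)

theorem main (a b c : ℤ) (h : Admissible a b c) (θ : ℝ) (hθ : 0 < θ) (hθ1 : θ ≤ 1) :
    ∃ r₀ : ℕ, 2 ≤ r₀ ∧ ∀ r : ℕ, r₀ ≤ r →
      (∃ κ : ℝ, 0 < κ ∧ ∀ᶠ X : ℕ in atTop, ∀ Y : ℕ, (X : ℝ) ^ θ ≤ Y → Y ≤ X →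
        κ * Y / Real.log X ≤ ((Al a b c r ∩ Set.Ioc X (X + Y)).ncard : ℝ)) ∧
      MostTypical 1 r (fun q n => (q : ℤ) ∣ a * (n : ℤ) ^ 2 + b * n + c) θ ∧
      GapsTypical 1 r (fun q n => (q : ℤ) ∣ a * (n : ℤ) ^ 2 + b * n + c) θ := by
  obtain ⟨r₀, hr₀, h0⟩ := sys_all le_rfl (fun _ : Fin 1 => quad a b c) (sys a b c h)
    (fun q n => (q : ℤ) ∣ a * (n : ℤ) ^ 2 + b * n + c)
    (fun q n _ => by simp only [quad_eval, exists_const]) θ hθ hθ1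
  refine ⟨r₀, hr₀, fun r hr => ?_⟩
  obtain ⟨⟨κ, hκ, h1⟩, h2, h3⟩ := h0 r hr
  refine ⟨⟨κ, hκ, ?_⟩, h2, h3⟩
  filter_upwards [h1] with X hX Y k1 k2
  have := hX Y k1 k2
  rw [pow_one] at this
  refine this.trans (Nat.cast_le.2 (Set.ncard_le_ncard ?_ ((Set.finite_Ioc X (X + Y)).subset
    Set.inter_subset_right)))
  rintro n ⟨hn, hnI⟩
  refine ⟨⟨⟨by have := hnI.1; omega, fun q hq hd => ?_⟩, ?_⟩, hnI⟩
  · refine (hn 0).2 q hq ?_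
    rw [quad_eval]
    exact hd
  · have := (hn 0).1
    rw [quad_eval, ArithmeticFunction.cardFactors_apply] at this
    exact this

end Pool.Agent.Helper32K9.QuadF
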