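import Pool.Agent.Helper32K9.Reg.Tup

/-!
# The two shapes of prime quadruples
-/

set_option autoImplicit false

namespace Pool.Agent.Helper32K9.Tup

theorem shapes_inj (s : Fin 4 → ℕ) (hs : s = ![0, 2, 6, 8] ∨ s = ![0, 4, 6, 10]) : Function.Injective s := by
  rcases hs with rfl | rfl <;> decide

theorem shapes_zero (s : Fin 4 → ℕ) (hs : s = ![0, 2, 6, 8] ∨ s = ![0, 4, 6, 10]) : s 0 = 0 := by
  rcases hs with rfl | rfl <;> rfl

theorem shapes_adm (s : Fin 4 → ℕ) (hs : s = ![0, 2, 6, 8] ∨ s = ![0, 4, 6, 10]) (p : ℕ) (hp : p.Prime) :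
    ∃ m : ℕ, ∀ i, ¬ p ∣ m + s i := by
  rcases hs with rfl | rfl
  · rcases lt_or_ge p 30 with h30 | h30
    · refine ⟨101, fun i hd => ?_⟩
      have hq : (101 + (![0, 2, 6, 8] : Fin 4 → ℕ) i).Prime := by fin_cases i <;> norm_num
      have := (Nat.prime_dvd_prime_iff_eq hp hq).1 hd
      omega
    · refine ⟨5, fun i hd => ?_⟩
      have hle : (![0, 2, 6, 8] : Fin 4 → ℕ) i ≤ 8 := by fin_cases i <;> simp
      have := Nat.le_of_dvd (by omega) hd
      omega
  · rcases lt_or_ge p 30 with h30 | h30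
    · refine ⟨37, fun i hd => ?_⟩
      have hq : (37 + (![0, 4, 6, 10] : Fin 4 → ℕ) i).Prime := by fin_cases i <;> norm_num
      have := (Nat.prime_dvd_prime_iff_eq hp hq).1 hd
      omega
    · refine ⟨7, fun i hd => ?_⟩
      have hle : (![0, 4, 6, 10] : Fin 4 → ℕ) i ≤ 10 := by fin_cases i <;> simp
      have := Nat.le_of_dvd (by omega) hd
      omega

end Pool.Agent.Helper32K9.Tup
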