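import Mathlib

/-!
# Prime triples: definitions
-/

set_option autoImplicit false

namespace Pool.Agent.Helper32K9.Trip

/-- `0 < d' < d`, and for every prime `q` there is a residue class which avoids `0`, `- d'` and `- d` modulo `q`,
equivalently the singular series of `{0, d', d}` is not zero -/
def Adm (d' d : ℕ) : Prop :=
  0 < d' ∧ d' < d ∧ ∀ q : ℕ, q.Prime → ∃ m : ℕ, ¬ q ∣ m ∧ ¬ q ∣ m + d' ∧ ¬ q ∣ m + d

/-- the integers `n` such that all prime factors of `n`, `n + (d - d')` and `n + d` are larger than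
`n ^ (1 / r)` -/
def R (d' d r : ℕ) : Set ℕ :=
  {n | ∀ q : ℕ, q.Prime → q ∣ n ∨ q ∣ n + (d - d') ∨ q ∣ n + d → (n : ℝ) ^ (1 / (r : ℝ)) < q}

/-- the integers `n` of `R d' d r` for which `n`, `n + (d - d')` and `n + d` have at most `r` prime factors -/
def Al (d' d r : ℕ) : Set ℕ := {n | n ∈ R d' d r ∧ n.primeFactorsList.length ≤ r ∧
  (n + (d - d')).primeFactorsList.length ≤ r ∧ (n + d).primeFactorsList.length ≤ r}

end Pool.Agent.Helper32K9.Trip
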