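import Pool.Agent.Helper32K9.Reg.Tup
import Pool.Agent.Helper32K9.Reg.TripDefs

/-!
# Typical elements: prime triples
-/

set_option autoImplicit false

namespace Pool.Agent.Helper32K9.Trip

open Filter
open Pool.Agent.Helper32K9.Typ

theorem div_iff (d' d q n : ℕ) : (∃ i, q ∣ n + (![0, d - d', d] : Fin 3 → ℕ) i) ↔
    q ∣ n ∨ q ∣ n + (d - d') ∨ q ∣ n + d := by
  constructor
  · rintro ⟨i, hi⟩
    fin_cases i
    · exact Or.inl hi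
    · exact Or.inr (Or.inl hi)
    · exact Or.inr (Or.inr hi)
  · rintro (h | h | h)
    · exact ⟨0, h⟩
    · exact ⟨1, h⟩
    · exact ⟨2, h⟩

theorem adm_tup {d' d : ℕ} (h : Adm d' d) (q : ℕ) (hq : q.Prime) :
    ∃ m : ℕ, ∀ i, ¬ q ∣ m + (![0, d - d', d] : Fin 3 → ℕ) i := by
  obtain ⟨h1, h2, h3⟩ := h
  obtain ⟨m, k1, k2, k3⟩ := h3 q hq
  have hle : m + d ≤ q * (m + d) := Nat.le_mul_of_pos_left _ hq.pos
  refine ⟨q * (m + d) - (m + d), fun i hi => ?_⟩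
  obtain ⟨w, hw⟩ : ∃ w, q * (m + d) - (m + d) = w := ⟨_, rfl⟩
  have hw2 : w + (m + d) = q * (m + d) := by omega
  rw [hw] at hi
  have hdiv : q ∣ w + (m + d) := ⟨m + d, hw2⟩
  fin_cases i
  · have h5 : q ∣ w := hi
    exact k3 ((Nat.dvd_add_right h5).1 hdiv)
  · have h5 : q ∣ w + (d - d') := hi
    have h6 : w + (m + d) = w + (d - d') + (m + d') := by omega
    rw [h6] at hdiv
    exact k2 ((Nat.dvd_add_right h5).1 hdiv)
  · have h5 : q ∣ w + d := hi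
    have h6 : w + (m + d) = w + d + m := by omega
    rw [h6] at hdiv
    exact k1 ((Nat.dvd_add_right h5).1 hdiv)

theorem prime_mem {d' d r n : ℕ} (hr : 2 ≤ r) (hd : 0 < d' ∧ d' < d) (h1 : n.Prime) (h2 : (n + (d - d')).Prime)
    (h3 : (n + d).Prime) : n ∈ R d' d r := by
  intro q hq hdv
  refine Pool.Agent.Helper32K9.Tup.prime_mem (![0, d - d', d]) hr h1.two_le ?_ q hq ((div_iff d' d q n).2 hdv)
  intro i
  fin_cases i
  · exact h1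
  · exact h2
  · exact h3

theorem main {d' d : ℕ} (h : Adm d' d) (θ : ℝ) (hθ : 0 < θ) (hθ1 : θ ≤ 1) :
    ∃ r₀ : ℕ, 2 ≤ r₀ ∧ ∀ r : ℕ, r₀ ≤ r →
      (∃ κ : ℝ, 0 < κ ∧ ∀ᶠ X : ℕ in atTop, ∀ Y : ℕ, (X : ℝ) ^ θ ≤ Y → Y ≤ X →
        κ * Y / Real.log X ^ 3 ≤ ((Al d' d r ∩ Set.Ioc X (X + Y)).ncard : ℝ)) ∧
      MostTypical 3 r (fun q n => q ∣ n ∨ q ∣ n + (d - d') ∨ q ∣ n + d) θ ∧
      GapsTypical 3 r (fun q n => q ∣ n ∨ q ∣ n + (d - d') ∨ q ∣ n + d) θ := by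
  obtain ⟨h1, h2, h3⟩ := h
  have hinj : Function.Injective (![0, d - d', d] : Fin 3 → ℕ) := by
    intro i j hij
    fin_cases i <;> fin_cases j <;> simp at hij ⊢ <;> omega
  obtain ⟨r₀, hr₀, k⟩ := Pool.Agent.Helper32K9.Tup.main (by norm_num : 1 ≤ 3) (![0, d - d', d] : Fin 3 → ℕ) hinj
    (adm_tup ⟨h1, h2, h3⟩) θ hθ hθ1
  have e : (fun q n : ℕ => ∃ i, q ∣ n + (![0, d - d', d] : Fin 3 → ℕ) i) =
      (fun q n => q ∣ n ∨ q ∣ n + (d - d') ∨ q ∣ n + d) := by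
    funext q n
    exact propext (div_iff d' d q n)
  rw [e] at k
  refine ⟨r₀, hr₀, fun r hr => ?_⟩
  obtain ⟨⟨κ, hκ, l1⟩, l2, l3⟩ := k r hr
  refine ⟨⟨κ, hκ, ?_⟩, l2, l3⟩
  have e2 : Pool.Agent.Helper32K9.Tup.Al (![0, d - d', d] : Fin 3 → ℕ) r = Al d' d r := by
    ext n
    constructor
    · rintro ⟨h5, h6⟩
      exact ⟨fun q hq hdv => h5 q hq ((div_iff d' d q n).2 hdv), h6 0, h6 1, h6 2⟩
    · rintro ⟨h5, h6, h7, h8⟩
      refine ⟨fun q hq hdv => h5 q hq ((div_iff d' d q n).1 hdv), fun i => ?_⟩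
      fin_cases i
      · exact h6
      · exact h7
      · exact h8
  rw [e2] at l1
  exact l1

end Pool.Agent.Helper32K9.Trip
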