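import Mathlib

/-!
# Shifts of integers: rough and almost prime tuples, definitions
-/

set_option autoImplicit false

namespace Pool.Agent.Helper32K9.Tup

/-- the integers `n` such that all prime factors of all `n + s i` are larger than `n ^ (1 / r)` -/
def R {k : ℕ} (s : Fin k → ℕ) (r : ℕ) : Set ℕ :=
  {n | ∀ q : ℕ, q.Prime → (∃ i, q ∣ n + s i) → (n : ℝ) ^ (1 / (r : ℝ)) < q}

/-- the integers `n` such that all `n + s i` have at most `r` prime factors, all larger than `n ^ (1 / r)` -/
def Al {k : ℕ} (s : Fin k → ℕ) (r : ℕ) : Set ℕ := {n | n ∈ R s r ∧ ∀ i, (n + s i).primeFactorsList.length ≤ r}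

end Pool.Agent.Helper32K9.Tup
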