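import Pool.Agent.Helper32K9.Reg.Pack2
import Pool.Agent.Helper32K9.Reg.TupDefs

/-!
# Typical elements: tuples
-/

set_option autoImplicit false

namespace Pool.Agent.Helper32K9.Tup

open Filter Finset Polynomial
open Pool.Agent.W123.RU.Poly (Sys)
open Pool.Agent.X69.Ric
open Pool.Agent.Helper32K9.Typ
open Pool.Agent.W182.PW

variable {k : ℕ}

theorem prime_mem (s : Fin k → ℕ) {r n : ℕ} (hr : 2 ≤ r) (hn : 2 ≤ n) (h : ∀ i, (n + s i).Prime) : n ∈ R s r := by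
  rintro q hq ⟨i, hi⟩
  rw [(Nat.prime_dvd_prime_iff_eq hq (h i)).1 hi]
  exact Pool.Agent.TH977.PW.rpow_lt_of_le r n _ hr hn (by omega)

theorem main (hk : 1 ≤ k) (s : Fin k → ℕ) (hs : Function.Injective s)
    (hadm : ∀ p : ℕ, p.Prime → ∃ m : ℕ, ∀ i, ¬ p ∣ m + s i) (θ : ℝ) (hθ : 0 < θ) (hθ1 : θ ≤ 1) :
    ∃ r₀ : ℕ, 2 ≤ r₀ ∧ ∀ r : ℕ, r₀ ≤ r →
      (∃ κ : ℝ, 0 < κ ∧ ∀ᶠ X : ℕ in atTop, ∀ Y : ℕ, (X : ℝ) ^ θ ≤ Y → Y ≤ X →
        κ * Y / Real.log X ^ k ≤ ((Al s r ∩ Set.Ioc X (X + Y)).ncard : ℝ)) ∧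
      MostTypical k r (fun q n => ∃ i, q ∣ n + s i) θ ∧ GapsTypical k r (fun q n => ∃ i, q ∣ n + s i) θ := by
  have hF : Sys (fun i : Fin k => lin 1 (s i : ℤ)) := by
    have := Pool.Agent.TH977.PW.sys_lin (fun _ : Fin k => 1) (fun i => (s i : ℤ)) (fun _ => one_pos)
      (fun i => by rw [Nat.cast_one]; exact isCoprime_one_left) (fun i j _ h => hs (by exact_mod_cast h)) (fun p hp => by
        obtain ⟨m, hm⟩ := hadm p hp
        refine ⟨m, fun i h => hm i ?_⟩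
        have e : ((1 : ℕ) : ℤ) * (m : ℤ) + (s i : ℤ) = ((m + s i : ℕ) : ℤ) := by push_cast; ring
        rw [e] at h
        exact_mod_cast h)
    exact this
  have hev : ∀ (i : Fin k) (n : ℕ), (lin 1 (s i : ℤ)).eval (n : ℤ) = ((n + s i : ℕ) : ℤ) := by
    intro i n
    rw [lin_eval]
    push_cast
    ring
  obtain ⟨r₀, hr₀, h⟩ := sys_all hk (fun i : Fin k => lin 1 (s i : ℤ)) hF (fun q n => ∃ i, q ∣ n + s i)
    (fun q n _ => by simp only [hev, Int.natCast_dvd_natCast]) θ hθ hθ1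
  refine ⟨r₀, hr₀, fun r hr => ?_⟩
  obtain ⟨⟨κ, hκ, h1⟩, h2, h3⟩ := h r hr
  refine ⟨⟨κ, hκ, ?_⟩, h2, h3⟩
  filter_upwards [h1] with X hX Y k1 k2
  refine (hX Y k1 k2).trans (Nat.cast_le.2 (Set.ncard_le_ncard ?_ ((Set.finite_Ioc X (X + Y)).subset
    Set.inter_subset_right)))
  rintro n ⟨hn, hnI⟩
  refine ⟨⟨?_, fun i => ?_⟩, hnI⟩
  · rintro q hq ⟨i, hi⟩
    have := (hn i).2 q hq (by rw [hev]; exact_mod_cast hi)
    exact this
  · have := (hn i).1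
    rw [hev, Int.natAbs_natCast, ArithmeticFunction.cardFactors_apply] at this
    exact this

end Pool.Agent.Helper32K9.Tup
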